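import Pool.Agent.helper91.SI.Spec4

set_option autoImplicit false

namespace Pool.Agent.helper91.SI

open Pool.Agent.helper20.IG (IsIndepDom IsISet iGraph)

/-- One 6-cycle `x, a, a', y, b', b` of the i-graph. -/
theorem NTH_key (hI6W : I6W_stmt) (hINV : INV_stmt) {V : Type} [DecidableEq V] (G : SimpleGraph V)
    (h3 : NoTri G) (h4 : NoC4 G) (h4i : NoC4 (iGraph G)) (x a a' y b' b : {S : Finset V // IsISet G S})
    (hnd : [x, a, a', y, b', b].Nodup) (e0 : (iGraph G).Adj x a) (e1 : (iGraph G).Adj a a')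
    (e2 : (iGraph G).Adj a' y) (e3 : (iGraph G).Adj y b') (e4 : (iGraph G).Adj b' b)
    (e5 : (iGraph G).Adj b x) :
    ∃ p q : V, a'.1 \ y.1 = {p} ∧ y.1 \ a'.1 = {q} ∧ b.1 = insert q (x.1.erase p) := by
  have hcyc : Cyc6 (iGraph G) (fun t : ZMod 6 => ([x, a, a', y, b', b] : List _).get t) := by
    refine ⟨List.nodup_iff_injective_get.1 hnd, ?_⟩
    intro k
    fin_cases k
    · exact e0
    · exact e1
    · exact e2
    · exact e3
    · exact e4
    · exact e5
  obtain ⟨s, v, hW⟩ := hI6W V G _ hcyc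
  have hinv := hINV V G _ s v h3 h4 h4i hW
  obtain ⟨-, -, hst⟩ := hW
  obtain ⟨f1, f2, -, f4⟩ := hst 2
  obtain ⟨g1, g2, -, g4⟩ := hst 5
  obtain ⟨i1, i2⟩ := hinv 2
  have j1 : s 5 = v 2 := i1
  have j2 : v 5 = s 2 := i2
  have f1' : s 2 ∈ a'.1 := f1
  have f2' : v 2 ∉ a'.1 := f2
  have f4' : y.1 = insert (v 2) (a'.1.erase (s 2)) := f4
  have g1' : s 5 ∈ b.1 := g1
  have g2' : v 5 ∉ b.1 := g2
  have g4' : x.1 = insert (v 5) (b.1.erase (s 5)) := g4
  rw [j1] at g1' g4'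
  rw [j2] at g2' g4'
  have hne : s 2 ≠ v 2 := fun h => f2' (h ▸ f1')
  refine ⟨s 2, v 2, ?_, ?_, ?_⟩
  · rw [f4']
    ext w
    simp only [Finset.mem_sdiff, Finset.mem_insert, Finset.mem_erase, Finset.mem_singleton, not_or,
      not_and]
    constructor
    · rintro ⟨hw, hw1, hw2⟩
      by_contra hw3
      exact hw2 hw3 hw
    · rintro rfl
      exact ⟨f1', hne, fun h => absurd rfl h⟩
  · rw [f4']
    ext w
    simp only [Finset.mem_sdiff, Finset.mem_insert, Finset.mem_erase, Finset.mem_singleton]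
    constructor
    · rintro ⟨hw | hw, hw2⟩
      · exact hw
      · exact absurd hw.2 hw2
    · rintro rfl
      exact ⟨Or.inl rfl, f2'⟩
  · rw [g4', Finset.erase_insert (fun h => g2' (Finset.mem_of_mem_erase h)), Finset.insert_erase g1']

theorem NTH (hI6W : I6W_stmt) (hINV : INV_stmt) : NTH_stmt := by
  intro V _ G h3 h4 h4i hTh
  obtain ⟨x, y, a, a', b, b', c, c', n1, n2, hbc, xa, aa, ay, xb, bb, yb, xc, cc, yc⟩ := hTh
  obtain ⟨p, q, hp, hq, hb⟩ := NTH_key hI6W hINV G h3 h4 h4i x a a' y b' b n1 xa aa ay yb.symm bb.symm xb.symm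
  obtain ⟨p', q', hp', hq', hc⟩ := NTH_key hI6W hINV G h3 h4 h4i x a a' y c' c n2 xa aa ay yc.symm cc.symm xc.symm
  have hpp : p = p' := Finset.singleton_injective (hp.symm.trans hp')
  have hqq : q = q' := Finset.singleton_injective (hq.symm.trans hq')
  apply hbc
  apply Subtype.ext
  rw [hb, hc, hpp, hqq]

end Pool.Agent.helper91.SI
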